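import Pool.Agent.H16.TO.Targets

/-!
# Normal forms of models with one and with two orders
-/

set_option autoImplicit false

namespace Pool.Agent.H14.TW

open Pool.Agent.H16.TO

theorem surj_lt {n : ℕ} {f : ℕ → ℕ} (hf : ∀ a < n, f a < n)
    (hi : ∀ a < n, ∀ b < n, f a = f b → a = b) {b : ℕ} (hb : b < n) : ∃ a < n, f a = b := by
  have h1 : (Finset.range n).image f = Finset.range n := by
    apply Finset.eq_of_subset_of_card_le
    · intro x hx
      obtain ⟨a, ha, rfl⟩ := Finset.mem_image.1 hx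
      exact Finset.mem_range.2 (hf a (Finset.mem_range.1 ha))
    · rw [Finset.card_image_of_injOn]
      intro a ha b hb h
      exact hi a (by simpa using ha) b (by simpa using hb) h
  have h2 : b ∈ (Finset.range n).image f := by rw [h1]; exact Finset.mem_range.2 hb
  obtain ⟨a, ha, hab⟩ := Finset.mem_image.1 h2
  exact ⟨a, Finset.mem_range.1 ha, hab⟩

theorem sto_lt (n : ℕ) {r : ℕ → ℕ → Prop} (h : ∀ a b, r a b ↔ a < b) : STOn n r := by
  refine ⟨fun a _ hr => lt_irrefl a ((h a a).1 hr), fun a _ b _ c _ h1 h2 => ?_, fun a _ b _ hab => ?_⟩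
  · exact (h a c).2 (((h a b).1 h1).trans ((h b c).1 h2))
  · rcases lt_or_gt_of_ne hab with h1 | h1
    · exact Or.inl ((h a b).2 h1)
    · exact Or.inr ((h b a).2 h1)

theorem sto_key (n : ℕ) {r : ℕ → ℕ → Prop} {key : ℕ → ℕ}
    (hi : ∀ a < n, ∀ b < n, key a = key b → a = b) (h : ∀ a b, r a b ↔ key a < key b) :
    STOn n r := by
  refine ⟨fun a _ hr => lt_irrefl (key a) ((h a a).1 hr), fun a _ b _ c _ h1 h2 => ?_,
    fun a ha b hb hab => ?_⟩
  · exact (h a c).2 (((h a b).1 h1).trans ((h b c).1 h2))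
  · rcases lt_or_gt_of_ne (fun e => hab (hi a ha b hb e)) with h1 | h1
    · exact Or.inl ((h a b).2 h1)
    · exact Or.inr ((h b a).2 h1)

/-- the first of the orders may be taken to be the order of `ℕ` -/
theorem norm (hKY : T_KY) (hTR : T_TR) (φ : C2) (n l : ℕ) (hl : 0 < l) (P : ℕ → ℕ → Prop)
    (R : ℕ → ℕ → ℕ → Prop) (hO : ∀ j < l, STOn n (R j))
    (hS : ∀ s : Bool → ℕ, (∀ w, s w < n) → φ.SatN n P R s) :
    ∃ (P' : ℕ → ℕ → Prop) (R' : ℕ → ℕ → ℕ → Prop), (∀ a b, R' 0 a b ↔ a < b) ∧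
      (∀ j < l, STOn n (R' j)) ∧ ∀ s : Bool → ℕ, (∀ w, s w < n) → φ.SatN n P' R' s := by
  obtain ⟨f, hf, hi, hk⟩ := hKY n (R 0) (hO 0 hl)
  let P' : ℕ → ℕ → Prop := fun i b => ∃ a < n, f a = b ∧ P i a
  let R' : ℕ → ℕ → ℕ → Prop := fun i a b =>
    if i = 0 then a < b else ∃ a' < n, ∃ b' < n, f a' = a ∧ f b' = b ∧ R i a' b'
  have hR0 : ∀ a b, R' 0 a b ↔ a < b := fun a b => by simp [R']
  have hR1 : ∀ i, i ≠ 0 → ∀ a b, R' i a b ↔ ∃ a' < n, ∃ b' < n, f a' = a ∧ f b' = b ∧ R i a' b' :=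
    fun i h a b => by simp [R', h]
  refine ⟨P', R', hR0, ?_, ?_⟩
  · intro j hj
    by_cases h0 : j = 0
    · subst h0
      exact sto_lt n hR0
    · obtain ⟨o1, o2, o3⟩ := hO j hj
      refine ⟨?_, ?_, ?_⟩
      · intro a _ h
        obtain ⟨a', ha', b', hb', e1, e2, h3⟩ := (hR1 j h0 a a).1 h
        have : a' = b' := hi a' ha' b' hb' (e1.trans e2.symm)
        subst this
        exact o1 a' ha' h3
      · intro a _ b _ c _ h1 h2
        obtain ⟨a', ha', b', hb', e1, e2, h3⟩ := (hR1 j h0 a b).1 h1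
        obtain ⟨b'', hb'', c', hc', e3, e4, h4⟩ := (hR1 j h0 b c).1 h2
        have : b' = b'' := hi b' hb' b'' hb'' (e2.trans e3.symm)
        subst this
        exact (hR1 j h0 a c).2 ⟨a', ha', c', hc', e1, e4, o2 a' ha' b' hb' c' hc' h3 h4⟩
      · intro a ha b hb hab
        obtain ⟨a', ha', e1⟩ := surj_lt hf hi ha
        obtain ⟨b', hb', e2⟩ := surj_lt hf hi hb
        have hne : a' ≠ b' := by
          intro e
          subst e
          exact hab (e1.symm.trans e2)
        rcases o3 a' ha' b' hb' hne with h | h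
        · exact Or.inl ((hR1 j h0 a b).2 ⟨a', ha', b', hb', e1, e2, h⟩)
        · exact Or.inr ((hR1 j h0 b a).2 ⟨b', hb', a', ha', e2, e1, h⟩)
  · intro s' hs'
    choose t ht using fun w => surj_lt hf hi (hs' w)
    have h := (hTR n f hf hi P P' R R' (fun i a ha => ?_) (fun i a ha b hb => ?_) φ t
      (fun w => (ht w).1)).1 (hS t fun w => (ht w).1)
    · have e : (fun w => f (t w)) = s' := funext fun w => (ht w).2
      rwa [e] at h
    · constructor
      · exact fun h => ⟨a, ha, rfl, h⟩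
      · rintro ⟨a', ha', e, h⟩
        have := hi a' ha' a ha e
        subst this
        exact h
    · by_cases h0 : i = 0
      · subst h0
        rw [hR0]
        exact hk a ha b hb
      · rw [hR1 i h0]
        constructor
        · exact fun h => ⟨a, ha, b, hb, rfl, rfl, h⟩
        · rintro ⟨a', ha', b', hb', e1, e2, h⟩
          have h1 := hi a' ha' a ha e1
          have h2 := hi b' hb' b hb e2
          subst h1
          subst h2
          exact h

theorem pf_b1 : T_BR → T_KY → T_TR → T_B1 := by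
  intro hBR hKY hTR φ n
  rw [hBR 1 φ n]
  constructor
  · rintro ⟨hn, P, R, hO, hS⟩
    obtain ⟨P', R', h1, _, h3⟩ := norm hKY hTR φ n 1 one_pos P R hO hS
    exact ⟨hn, P', R', h1, h3⟩
  · rintro ⟨hn, P, R, h1, h3⟩
    refine ⟨hn, P, R, ?_, h3⟩
    intro j hj
    obtain rfl : j = 0 := by omega
    exact sto_lt n h1

theorem pf_b2 : T_BR → T_KY → T_TR → T_B2 := by
  intro hBR hKY hTR φ n
  rw [hBR 2 φ n]
  constructor
  · rintro ⟨hn, P, R, hO, hS⟩
    obtain ⟨P', R', h1, h2, h3⟩ := norm hKY hTR φ n 2 two_pos P R hO hS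
    obtain ⟨key, _, hi, hk⟩ := hKY n (R' 1) (h2 1 one_lt_two)
    let R'' : ℕ → ℕ → ℕ → Prop := fun i a b => if i = 1 then key a < key b else R' i a b
    refine ⟨hn, P', R'', key, fun a b => ?_, hi, fun a b => ?_, fun s hs => ?_⟩
    · simp only [R'']
      rw [if_neg (by norm_num)]
      exact h1 a b
    · simp [R'']
    · have h := (hTR n id (fun a ha => ha) (fun a _ b _ e => e) P' P' R' R''
        (fun i a ha => Iff.rfl) (fun i a ha b hb => ?_) φ s hs).1 (h3 s hs)
      · exact h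
      · by_cases h0 : i = 1
        · subst h0
          simp only [R'', if_true]
          exact hk a ha b hb
        · simp only [R'', if_neg h0]
          exact Iff.rfl
  · rintro ⟨hn, P, R, key, h1, hi, h2, h3⟩
    refine ⟨hn, P, R, ?_, h3⟩
    intro j hj
    have hj' : j = 0 ∨ j = 1 := by omega
    rcases hj' with rfl | rfl
    · exact sto_lt n h1
    · exact sto_key n hi h2

end Pool.Agent.H14.TW
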