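import Pool.Agent.H16.TO.Targets

/-!
# Satisfaction depends only on the relations which occur
-/

set_option autoImplicit false

namespace Pool.Agent.H14.TW

open Pool.Agent.H16.TO

theorem upd_lt {n : ℕ} {s : Bool → ℕ} (hs : ∀ w, s w < n) (v : Bool) {a : ℕ} (ha : a < n) :
    ∀ w, Function.update s v a w < n := by
  intro w
  by_cases h : w = v
  · subst h; simpa using ha
  · rw [Function.update_of_ne h]; exact hs w

theorem pf_sc : T_SC := by
  intro φ n P P' R R'
  induction φ with
  | un i v => intro hP hR s hs; exact hP i (by simp [C2.bd]) _ (hs v)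
  | bi i v w => intro hP hR s hs; exact hR i (by simp [C2.bd]) _ (hs v) _ (hs w)
  | eq v w => intro hP hR s hs; exact Iff.rfl
  | neg φ ih => intro hP hR s hs; exact not_congr (ih hP hR s hs)
  | and φ ψ ih1 ih2 =>
    intro hP hR s hs
    exact and_congr
      (ih1 (fun i hi => hP i (lt_of_lt_of_le hi (le_max_left _ _)))
        (fun i hi => hR i (lt_of_lt_of_le hi (le_max_left _ _))) s hs)
      (ih2 (fun i hi => hP i (lt_of_lt_of_le hi (le_max_right _ _)))
        (fun i hi => hR i (lt_of_lt_of_le hi (le_max_right _ _))) s hs)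
  | cnt k v φ ih =>
    intro hP hR s hs
    have h : {a | a < n ∧ φ.SatN n P R (Function.update s v a)} =
        {a | a < n ∧ φ.SatN n P' R' (Function.update s v a)} := by
      ext a
      change (a < n ∧ _) ↔ (a < n ∧ _)
      constructor
      · rintro ⟨h1, h2⟩; exact ⟨h1, (ih hP hR _ (upd_lt hs v h1)).1 h2⟩
      · rintro ⟨h1, h2⟩; exact ⟨h1, (ih hP hR _ (upd_lt hs v h1)).2 h2⟩
    change k ≤ _ ↔ k ≤ _
    rw [h]

end Pool.Agent.H14.TW
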